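import Pool.Agent.H41.CUBE.JStmts

/-!
# Cube project (MP_47888e_al), block TAME, part J: base change and scaling (`BCStmt`)
-/

set_option autoImplicit false

open Finset MvPolynomial Pool.CM

namespace Pool.CUBE

namespace BC

section
variable {n : ℕ} {F' : Type} [Field F']

/-- weights divisible by `D` -/
theorem wtd_monomial {A : Type} [CommRing A] (D : ℕ) (c : Fin (n + 1) →₀ ℕ) (r : A)
    (h : D ∣ c.degree + (n + 1)) : WtD D (monomial c r : Poly n A) := by
  classical
  intro a ha
  rw [coeff_monomial] at ha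
  by_cases hc : c = a
  · rw [← hc]
    exact h
  · rw [if_neg hc] at ha
    exact absurd rfl ha

theorem wtd_add {A : Type} [CommRing A] {D : ℕ} {g h : Poly n A} (hg : WtD D g) (hh : WtD D h) :
    WtD D (g + h) := by
  intro a ha
  by_cases h1 : coeff a g = 0
  · refine hh a fun h2 => ha ?_
    rw [coeff_add, h1, h2, add_zero]
  · exact hg a h1

theorem wtd_sub {A : Type} [CommRing A] {D : ℕ} {g h : Poly n A} (hg : WtD D g) (hh : WtD D h) :
    WtD D (g - h) := by
  intro a ha
  by_cases h1 : coeff a g = 0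
  · refine hh a fun h2 => ha ?_
    rw [coeff_sub, h1, h2, sub_zero]
  · exact hg a h1

theorem wtd_of_wt {A : Type} [CommRing A] {D l : ℕ} {g : Poly n A} (hg : Wt (D * l) g) :
    WtD D g := fun a ha => ⟨l, hg a ha⟩

theorem hom_deg {A : Type} [CommRing A] {D : ℕ} {Q : Poly n A} (hQ : Q.IsHomogeneous D)
    {c : Fin (n + 1) →₀ ℕ} (h : coeff c Q ≠ 0) : c.degree = D := by
  rw [Finsupp.degree_eq_weight_one]
  exact hQ h

theorem wtd_mul {A : Type} [CommRing A] {D : ℕ} {Q g : Poly n A} (hQ : Q.IsHomogeneous D)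
    (hg : WtD D g) : WtD D (Q * g) := by
  classical
  intro a ha
  rw [coeff_mul] at ha
  obtain ⟨x, hx, hne⟩ := Finset.exists_ne_zero_of_sum_ne_zero ha
  rw [HasAntidiagonal.mem_antidiagonal] at hx
  have h1 : x.1.degree = D := hom_deg hQ (left_ne_zero_of_mul hne)
  have h2 := hg x.2 (right_ne_zero_of_mul hne)
  rw [← hx, map_add, h1, add_assoc]
  exact (Nat.dvd_add_right (dvd_refl D)).2 h2

theorem wtd_cD {A : Type} [CommRing A] {D : ℕ} (δ : Derivation ℤ A A) {g : Poly n A}
    (hg : WtD D g) : WtD D (cD δ g) := by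
  intro a ha
  refine hg a fun h => ha ?_
  change δ (coeff a g) = 0
  rw [h, map_zero]

theorem hom_cD {A : Type} [CommRing A] {D : ℕ} (δ : Derivation ℤ A A) {Q : Poly n A}
    (hQ : Q.IsHomogeneous D) : (cD δ Q).IsHomogeneous D := by
  intro a ha
  refine hQ fun h => ha ?_
  change δ (coeff a Q) = 0
  rw [h, map_zero]

theorem hom_ez {A : Type} [CommRing A] {D : ℕ} (i : Fin (n + 1)) {Q : Poly n A}
    (hQ : Q.IsHomogeneous D) : (ez i Q).IsHomogeneous D := by
  classical
  conv => arg 1; rw [Q.as_sum, map_sum]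
  refine MvPolynomial.IsHomogeneous.sum _ _ _ fun a ha => ?_
  rw [ez_monomial]
  refine MvPolynomial.isHomogeneous_monomial _ ?_
  exact hom_deg hQ (MvPolynomial.mem_support_iff.1 ha)

theorem scl_monomial (D : ℕ) (a : F') (c : Fin (n + 1) →₀ ℕ) (r : F') :
    scl D a (monomial c r : Poly n F') = if D ∣ c.degree + (n + 1) then
      monomial c (a⁻¹ ^ ((c.degree + (n + 1)) / D) * r) else 0 := by
  rw [scl, linMon_monomial]
  split_ifs
  · rw [smul_monomial, smul_eq_mul, mul_comm]
  · rw [smul_zero]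

theorem scl_mul (D : ℕ) (hD : 0 < D) (a : F') {Q : Poly n F'} (hQ : Q.IsHomogeneous D)
    (g : Poly n F') : scl D a (Q * g) = a⁻¹ • (Q * scl D a g) := by
  classical
  have key : ∀ m : Fin (n + 1) →₀ ℕ, m.degree = D → ∀ r : F', ∀ g : Poly n F',
      scl D a (monomial m r * g) = a⁻¹ • (monomial m r * scl D a g) := by
    intro m hm r g
    induction g using MvPolynomial.induction_on' with
    | add g1 g2 h1 h2 => rw [mul_add, map_add, map_add, h1, h2, mul_add, smul_add]
    | monomial c s =>
      rw [monomial_mul, scl_monomial, scl_monomial]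
      have hd : (m + c).degree + (n + 1) = (c.degree + (n + 1)) + D := by
        rw [map_add, hm]
        omega
      have : D ∣ (m + c).degree + (n + 1) ↔ D ∣ c.degree + (n + 1) := by
        rw [hd]
        exact Nat.dvd_add_left (dvd_refl D)
      by_cases h : D ∣ c.degree + (n + 1)
      · rw [if_pos h, if_pos (this.2 h), monomial_mul, smul_monomial, hd,
          Nat.add_div_right _ hD, pow_succ, smul_eq_mul]
        congr 1
        ring
      · rw [if_neg h, if_neg (fun h' => h (this.1 h')), mul_zero, smul_zero]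
  conv_lhs => rw [Q.as_sum, Finset.sum_mul, map_sum]
  conv_rhs => rw [Q.as_sum, Finset.sum_mul, Finset.smul_sum]
  refine Finset.sum_congr rfl fun m hm => key m ?_ _ _
  exact hom_deg hQ (MvPolynomial.mem_support_iff.1 hm)

theorem scl_ez (D : ℕ) (a : F') (i : Fin (n + 1)) (g : Poly n F') :
    scl D a (ez i g) = ez i (scl D a g) := by
  induction g using MvPolynomial.induction_on' with
  | add g1 g2 h1 h2 => rw [map_add, map_add, h1, h2, map_add, map_add]
  | monomial c s =>
    rw [ez_monomial, scl_monomial, scl_monomial]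
    split_ifs
    · rw [ez_monomial]
      congr 1
      ring
    · rw [map_zero]

theorem scl_Dop (D : ℕ) (hD : 0 < D) (a : F') (ha : a ≠ 0) {P' : Poly n F'}
    (hP : P'.IsHomogeneous D) (i : Fin (n + 1)) (g : Poly n F') :
    scl D a (Dop (C a * P') i g) = Dop P' i (scl D a g) := by
  have h1 : ez i (C a * P') = a • ez i P' := by
    rw [← smul_eq_C_mul, Derivation.map_smul]
  rw [Dop_apply, Dop_apply, map_sub, map_add, scl_ez, h1, smul_mul_assoc, map_smul,
    scl_mul D hD a (hom_ez i hP), smul_smul, mul_inv_cancel₀ ha, one_smul]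

theorem der_inv_pow (δ : Derivation ℤ F' F') (a : F') (h : δ a = 0) (m : ℕ) :
    δ (a⁻¹ ^ m) = 0 := by
  have h1 : δ a⁻¹ = 0 := by
    by_cases ha : a = 0
    · rw [ha, inv_zero, map_zero]
    · have h2 : δ (a * a⁻¹) = 0 := by rw [mul_inv_cancel₀ ha, Derivation.map_one_eq_zero]
      rw [Derivation.leibniz, h, smul_zero, add_zero, smul_eq_mul] at h2
      exact (mul_eq_zero.1 h2).resolve_left ha
  rw [Derivation.leibniz_pow, h1, smul_zero, smul_zero]

theorem scl_cD (D : ℕ) (δ : Derivation ℤ F' F') (a : F') (h : δ a = 0) (g : Poly n F') :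
    scl D a (cD δ g) = cD δ (scl D a g) := by
  induction g using MvPolynomial.induction_on' with
  | add g1 g2 h1 h2 => rw [map_add, map_add, h1, h2, map_add, map_add]
  | monomial c s =>
    rw [cD_monomial, scl_monomial, scl_monomial]
    split_ifs
    · rw [cD_monomial, Derivation.leibniz, der_inv_pow δ a h, smul_zero, add_zero, smul_eq_mul]
    · rw [map_zero]

theorem scl_of_wt (D m : ℕ) (hD : 0 < D) (a : F') {g : Poly n F'} (hg : Wt (D * m) g) :
    scl D a g = a⁻¹ ^ m • g := by
  classical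
  conv_lhs => rw [g.as_sum, map_sum]
  conv_rhs => rw [g.as_sum, Finset.smul_sum]
  refine Finset.sum_congr rfl fun c hc => ?_
  have h1 := hg c (MvPolynomial.mem_support_iff.1 hc)
  rw [scl_monomial, h1, if_pos (Dvd.intro _ rfl), Nat.mul_div_cancel_left _ hD, smul_monomial,
    smul_eq_mul]

theorem wtd_scl (D : ℕ) (a : F') (g : Poly n F') : WtD D (scl D a g) := by
  induction g using MvPolynomial.induction_on' with
  | add g1 g2 h1 h2 =>
    rw [map_add]
    exact wtd_add h1 h2
  | monomial c s =>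
    rw [scl_monomial]
    split_ifs with h
    · exact wtd_monomial D c _ h
    · intro b hb
      rw [coeff_zero] at hb
      exact absurd rfl hb

end

section
variable {n : ℕ} {F F' : Type} [Field F] [Field F']

theorem map_cD (κ : F →+* F') (δ : Derivation ℤ F F) (δ' : Derivation ℤ F' F')
    (h : ∀ x, δ' (κ x) = κ (δ x)) (g : Poly n F) :
    map κ (cD δ g) = cD δ' (map κ g) := by
  ext m
  rw [coeff_map]
  change κ (δ (coeff m g)) = δ' (coeff m (map κ g))
  rw [coeff_map, h]

theorem map_ez (κ : F →+* F') (i : Fin (n + 1)) (g : Poly n F) :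
    map κ (ez i g) = ez i (map κ g) := by
  induction g using MvPolynomial.induction_on' with
  | add g1 g2 h1 h2 => rw [map_add, map_add, h1, h2, map_add, map_add]
  | monomial c s =>
    rw [ez_monomial, map_monomial, map_monomial, ez_monomial, map_mul, map_natCast]

theorem map_Dop (κ : F →+* F') (P : Poly n F) (i : Fin (n + 1)) (g : Poly n F) :
    map κ (Dop P i g) = Dop (map κ P) i (map κ g) := by
  rw [Dop_apply, Dop_apply, map_sub, map_add, map_mul, map_ez, map_ez]

/-- the map `T` -/
noncomputable def T (κ : F →+* F') (D : ℕ) (a : F') : Poly n F →+ Poly n F' :=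
  (scl D a).toAddMonoidHom.comp (map κ).toAddMonoidHom

theorem T_apply (κ : F →+* F') (D : ℕ) (a : F') (g : Poly n F) :
    T κ D a g = scl D a (map κ g) := rfl

theorem T_smul (κ : F →+* F') (D : ℕ) (a : F') (c : F) (g : Poly n F) :
    T κ D a (c • g) = κ c • T κ D a g := by
  rw [T_apply, T_apply, smul_eq_C_mul, map_mul, map_C, ← smul_eq_C_mul, map_smul]

theorem T_Dop (κ : F →+* F') (D : ℕ) (hD : 0 < D) (a : F') (ha : a ≠ 0) {P : Poly n F}
    {P' : Poly n F'} (hP : P'.IsHomogeneous D) (hκ : map κ P = C a * P') (i : Fin (n + 1))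
    (g : Poly n F) : T κ D a (Dop P i g) = Dop P' i (T κ D a g) := by
  rw [T_apply, T_apply, map_Dop, hκ, scl_Dop D hD a ha hP]

theorem T_nab0 (κ : F →+* F') (D : ℕ) (hD : 0 < D) (a : F') (ha : a ≠ 0) {P : Poly n F}
    {P' : Poly n F'} (hP : P'.IsHomogeneous D) (hκ : map κ P = C a * P')
    (δ : Derivation ℤ F F) (δ' : Derivation ℤ F' F') (h : ∀ x, δ' (κ x) = κ (δ x))
    (h0 : δ' a = 0) (g : Poly n F) : T κ D a (nab0 δ P g) = nab0 δ' P' (T κ D a g) := by
  have h1 : cD δ' (C a * P') = a • cD δ' P' := by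
    rw [← smul_eq_C_mul, cD_smul, h0, zero_smul, add_zero]
  rw [T_apply, T_apply, nab0_apply, nab0_apply, map_sub, map_mul, map_cD κ δ δ' h,
    map_cD κ δ δ' h, hκ, map_sub, scl_cD D δ' a h0, h1, smul_mul_assoc, map_smul,
    scl_mul D hD a (hom_cD δ' hP), smul_smul, mul_inv_cancel₀ ha, one_smul]

theorem co_Rel {A N : Type} [CommRing A] {P : Poly n A} {co : Poly n A →ₗ[A] (N → A)}
    (h : ∀ i g, co (Dop P i g) = 0) (g : Poly n A) (hg : g ∈ Rel P) : co g = 0 := by
  rw [Rel] at hg
  refine Submodule.iSup_induction _ (motive := fun x => co x = 0) hg ?_ ?_ ?_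
  · rintro i _ ⟨k, rfl⟩
    exact h i k
  · rw [map_zero]
  · intro x y hx hy
    rw [map_add, hx, hy, add_zero]

theorem coT_Rel (κ : F →+* F') (D : ℕ) (hD : 0 < D) (a : F') (ha : a ≠ 0) {P : Poly n F}
    {P' : Poly n F'} (hP : P'.IsHomogeneous D) (hκ : map κ P = C a * P') {N' : Type}
    {co' : Poly n F' →ₗ[F'] (N' → F')} (h : ∀ i g, co' (Dop P' i g) = 0) (g : Poly n F)
    (hg : g ∈ Rel P) : co' (T κ D a g) = 0 := by
  rw [Rel] at hg
  refine Submodule.iSup_induction _ (motive := fun x => co' (T κ D a x) = 0) hg ?_ ?_ ?_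
  · rintro i _ ⟨k, rfl⟩
    rw [T_Dop κ D hD a ha hP hκ]
    exact h i _
  · rw [map_zero, map_zero]
  · intro x y hx hy
    rw [map_add, map_add, hx, hy, add_zero]

end

theorem eP_C_mul {A : Type} [CommRing A] (D : ℕ) (a : A) : ∀ (n : ℕ) (P : Poly n A),
    eP D n (C a * P) = a ^ (n + 1) • eP D n P
  | 0, P => by
    rw [eP, eP, coeff_C_mul, smul_monomial, smul_eq_mul, pow_one]
  | n + 1, P => by
    have h1 : faceP (C a * P) = C a * faceP P := by
      rw [faceP, faceP, map_mul]
      congr 1
      rw [MvPolynomial.aeval_C]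
      rfl
    have h2 : pderiv (0 : Fin (n + 2)) (C a * P) = a • pderiv (0 : Fin (n + 2)) P := by
      rw [← smul_eq_C_mul, Derivation.map_smul]
    rw [eP, eP, h1, h2, eP_C_mul D a n (faceP P), map_smul, smul_mul_smul_comm, ← pow_succ']

end BC

open BC in
theorem BC_proof (hE : EPWStmt) : BCStmt := by
  intro F F' _ _ _ _ κ n D hD P P' a ha hP hP' hκ N N' co co' b b' l l' hco hco' hbn hbn' hb hb'
    hN hN' hnone
  classical
  have main : ∀ g, WtD D g → co' (scl D a (map κ g)) =
      (matR κ D a b co').mulVec fun j => κ (co g j) := by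
    intro g hg
    have h1 := hco.span g hg
    have h2 := coT_Rel κ D hD a ha hP' hκ hco'.rel _ h1
    rw [map_sub, map_sub, sub_eq_zero, map_sum, map_sum] at h2
    rw [← T_apply, h2]
    ext x
    rw [Finset.sum_apply, Matrix.mulVec, dotProduct]
    refine Finset.sum_congr rfl fun j _ => ?_
    rw [T_smul, map_smul, Pi.smul_apply, smul_eq_mul, mul_comm]
    rfl
  have hTe : scl D a (map κ (eP D n P)) = eP D n P' := by
    obtain ⟨_, h2, _⟩ := hE F n D hD P hP
    obtain ⟨h1, _, _⟩ := hE F' n D hD P' hP'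
    rw [← h2 F' κ, hκ, eP_C_mul, map_smul, scl_of_wt D (n + 1) hD a h1, smul_smul, ← mul_pow,
      mul_inv_cancel₀ ha, one_pow, one_smul]
  have hcol : co' (scl D a (map κ (b none))) = Pi.single none 1 := by
    rw [hbn, hTe, ← hbn', hco'.cb]
  refine ⟨main, ?_, ?_, ?_⟩
  · intro δ δ' hδ h0
    have hT : ∀ j, WtD D (nab0 δ P (b j)) := by
      intro j
      have h1 := wtd_of_wt (hco.lb j)
      rw [nab0_apply]
      exact wtd_sub (wtd_cD δ h1) (wtd_mul (hom_cD δ hP) h1)
    ext x j
    have h1 : co' (T κ D a (nab0 δ P (b j))) x = (matR κ D a b co' *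
        (matG δ P b co).map κ) x j := by
      rw [T_apply, main _ (hT j), Matrix.mulVec, Matrix.mul_apply, dotProduct]
      rfl
    rw [← h1, T_nab0 κ D hD a ha hP' hκ δ δ' hδ h0]
    have h2 := hco'.span (T κ D a (b j)) (wtd_scl D a _)
    have h3 := co_Rel hco'.rel _ (nab0_Rel δ' P' _ h2)
    rw [map_sub, map_sub, sub_eq_zero, map_sum, map_sum] at h3
    rw [h3, Finset.sum_apply, Matrix.add_apply, Matrix.map_apply, Matrix.mul_apply]
    have h4 : ∀ y, co' (nab0 δ' P' (co' (T κ D a (b j)) y • b' y)) x =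
        matG δ' P' b' co' x y * matR κ D a b co' y j +
          δ' (matR κ D a b co' y j) * (Pi.single y (1 : F') : Option N' → F') x := by
      intro y
      rw [nab0_smul, map_add, map_smul, map_smul, Pi.add_apply, Pi.smul_apply, Pi.smul_apply,
        hco'.cb, smul_eq_mul, smul_eq_mul, mul_comm]
      rfl
    rw [Finset.sum_congr rfl fun y _ => h4 y, Finset.sum_add_distrib, add_comm]
    congr 1
    rw [Finset.sum_eq_single x]
    · rw [Pi.single_eq_same, mul_one]
    · intro y _ hy
      rw [Pi.single_eq_of_ne (Ne.symm hy), mul_zero]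
    · intro hx
      exact absurd (Finset.mem_univ _) hx
  · intro j
    cases j with
    | none =>
      rw [if_pos rfl]
      change co' (scl D a (map κ (b none))) none = 1
      rw [hcol, Pi.single_eq_same]
    | some x =>
      rw [if_neg (Option.some_ne_none x)]
      change co' (scl D a (map κ (b (some x)))) none = 0
      rw [hb, map_monomial, map_one, scl_monomial]
      split_ifs
      · rw [mul_one]
        have h5 : (monomial x.1 (a⁻¹ ^ ((x.1.degree + (n + 1)) / D)) : Poly n F') =
            a⁻¹ ^ ((x.1.degree + (n + 1)) / D) • monomial x.1 1 := by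
          rw [smul_monomial, smul_eq_mul, mul_one]
        rw [h5, map_smul, Pi.smul_apply, hnone x.1 (hN x), smul_zero]
      · rw [map_zero]
        rfl
  · intro x
    change co' (scl D a (map κ (b none))) x = _
    rw [hcol]
    by_cases hx : x = none
    · rw [if_pos hx, hx, Pi.single_eq_same]
    · rw [if_neg hx, Pi.single_eq_of_ne hx]

end Pool.CUBE
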